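import Mathlib

namespace Pool.Agent.Results.MP_700e60_co.Counter

open MvPolynomial

/-- nonzero good polynomial: coefficients in `ℕ`, zero constant term, nonzero -/
def Good {m : ℕ} (p : MvPolynomial (Fin m) ℕ) : Prop := p ≠ 0 ∧ coeff 0 p = 0

/-- `T`: nonzero one-variable polynomials over `ℕ` with zero constant term -/
def T : Set (Polynomial ℕ) := {p | p ≠ 0 ∧ p.coeff 0 = 0}

/-- partition regular over the positive integers -/
def PRNat {m k : ℕ} (F : Fin k → MvPolynomial (Fin m) ℕ) : Prop :=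
  ∀ (r : ℕ) (c : ℕ → Fin r), ∃ a : Fin m → ℕ, (∀ i, 0 < a i) ∧
    ∀ i j, c (eval a (F i)) = c (eval a (F j))

/-- partition regular over the positive integers with arbitrarily large, pairwise distinct
variables and pairwise distinct values -/
def StrongPRNat {m k : ℕ} (F : Fin k → MvPolynomial (Fin m) ℕ) : Prop :=
  ∀ (r : ℕ) (c : ℕ → Fin r) (M : ℕ), ∃ a : Fin m → ℕ, (∀ i, M < a i) ∧
    Function.Injective a ∧ Function.Injective (fun i => eval a (F i)) ∧
    ∀ i j, c (eval a (F i)) = c (eval a (F j))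

/-- partition regular over `T` -/
def PRT {m k : ℕ} (F : Fin k → MvPolynomial (Fin m) ℕ) : Prop :=
  ∀ (r : ℕ) (c : Polynomial ℕ → Fin r), ∃ a : Fin m → Polynomial ℕ, (∀ i, a i ∈ T) ∧
    ∀ i j, c (aeval a (F i)) = c (aeval a (F j))

/-- the pattern `{(x² + x) u², 2 v²}` -/
noncomputable def pat : Fin 2 → MvPolynomial (Fin 3) ℕ :=
  ![(X 0 ^ 2 + X 0) * X 1 ^ 2, 2 * X 2 ^ 2]

lemma pell (M : ℕ) : ∃ x w : ℕ, M < x ∧ 0 < w ∧ x ^ 2 + x = 2 * w ^ 2 := by
  induction M with
  | zero => exact ⟨1, 1, by norm_num, by norm_num, by norm_num⟩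
  | succ n ih =>
    obtain ⟨x, w, h1, h2, h3⟩ := ih
    refine ⟨3 * x + 4 * w + 1, 2 * x + 3 * w + 1, by omega, by omega, ?_⟩
    nlinarith

lemma strong : StrongPRNat pat := by
  intro r c M
  obtain ⟨x, w, hx, hw, h⟩ := pell M
  have key : ∃ n n' : ℕ, x < n ∧ n < n' ∧ c (2 * (w * n) ^ 2) = c (2 * (w * n') ^ 2) := by
    obtain ⟨a, b, hab, hc⟩ :=
      Finite.exists_ne_map_eq_of_infinite (fun n : ℕ => c (2 * (w * (n + x + 1)) ^ 2))
    rcases lt_or_gt_of_ne hab with h1 | h1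
    · exact ⟨a + x + 1, b + x + 1, by omega, by omega, hc⟩
    · exact ⟨b + x + 1, a + x + 1, by omega, by omega, hc.symm⟩
  obtain ⟨n, n', h1, h2, h3⟩ := key
  have hv : n' ≤ w * n' := Nat.le_mul_of_pos_left _ hw
  have e0 : eval ![x, n, w * n'] (pat 0) = 2 * (w * n) ^ 2 := by
    simp [pat]
    rw [h]; ring
  have e1 : eval ![x, n, w * n'] (pat 1) = 2 * (w * n') ^ 2 := by
    simp [pat]
  have hlt : 2 * (w * n) ^ 2 < 2 * (w * n') ^ 2 := by
    have : w * n < w * n' := Nat.mul_lt_mul_of_pos_left h2 hw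
    have := Nat.pow_lt_pow_left this (n := 2) (by norm_num)
    omega
  refine ⟨![x, n, w * n'], ?_, ?_, ?_, ?_⟩
  · intro i
    fin_cases i <;> simp <;> omega
  · intro i j hij
    fin_cases i <;> fin_cases j <;> simp at hij ⊢ <;> omega
  · intro i j hij
    fin_cases i <;> fin_cases j
    · rfl
    · simp only [Fin.zero_eta, Fin.mk_one] at hij
      rw [e0, e1] at hij; omega
    · simp only [Fin.zero_eta, Fin.mk_one] at hij
      rw [e0, e1] at hij; omega
    · rfl
  · intro i j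
    fin_cases i <;> fin_cases j
    · rfl
    · simp only [Fin.zero_eta, Fin.mk_one]
      rw [e0, e1, h3]
    · simp only [Fin.zero_eta, Fin.mk_one]
      rw [e0, e1, h3]
    · rfl

lemma notT : ¬ PRT pat := by
  intro h
  obtain ⟨a, ha, hc⟩ := h 2 (fun p => ⟨padicValNat 2 p.leadingCoeff % 2, Nat.mod_lt _ (by norm_num)⟩)
  have h01 := hc 0 1
  simp only [Fin.mk.injEq] at h01
  have e0 : aeval a (pat 0) = (a 0 ^ 2 + a 0) * a 1 ^ 2 := by simp [pat]
  have e1 : aeval a (pat 1) = 2 * a 2 ^ 2 := by simp [pat]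
  rw [e0, e1] at h01
  have hdeg : 0 < (a 0).degree := by
    by_contra hd
    push Not at hd
    have := Polynomial.eq_C_of_degree_le_zero hd
    rw [(ha 0).2] at this
    exact (ha 0).1 (by simpa using this)
  have hlt : (a 0).degree < (a 0 ^ 2).degree := by
    rw [Polynomial.degree_pow, Polynomial.degree_eq_natDegree (ha 0).1] 
    rw [Polynomial.degree_eq_natDegree (ha 0).1] at hdeg
    have : 0 < (a 0).natDegree := by exact_mod_cast hdeg
    rw [two_nsmul]
    exact_mod_cast (by omega : (a 0).natDegree < (a 0).natDegree + (a 0).natDegree)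
  have l0 : ((a 0 ^ 2 + a 0) * a 1 ^ 2).leadingCoeff =
      ((a 0).leadingCoeff * (a 1).leadingCoeff) ^ 2 := by
    rw [Polynomial.leadingCoeff_mul, Polynomial.leadingCoeff_add_of_degree_lt' hlt,
      Polynomial.leadingCoeff_pow, Polynomial.leadingCoeff_pow, mul_pow]
  have l1 : (2 * a 2 ^ 2).leadingCoeff = 2 * (a 2).leadingCoeff ^ 2 := by
    rw [Polynomial.leadingCoeff_mul, Polynomial.leadingCoeff_pow]
    have : (2 : Polynomial ℕ) = Polynomial.C 2 := rfl
    rw [this, Polynomial.leadingCoeff_C]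
  rw [l0, l1] at h01
  have n0 : (a 0).leadingCoeff * (a 1).leadingCoeff ≠ 0 :=
    mul_ne_zero (Polynomial.leadingCoeff_ne_zero.2 (ha 0).1)
      (Polynomial.leadingCoeff_ne_zero.2 (ha 1).1)
  have n2 : (a 2).leadingCoeff ≠ 0 := Polynomial.leadingCoeff_ne_zero.2 (ha 2).1
  have : Fact (Nat.Prime 2) := ⟨Nat.prime_two⟩
  rw [padicValNat.pow, padicValNat.mul (by norm_num) (pow_ne_zero _ n2),
    padicValNat.pow, padicValNat_self] at h01
  omega

theorem result : ∃ (m k : ℕ) (F : Fin k → MvPolynomial (Fin m) ℕ),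
    (∀ i, Good (F i)) ∧ PRNat F ∧ StrongPRNat F ∧ ¬ PRT F := by
  refine ⟨3, 2, pat, ?_, ?_, strong, notT⟩
  · have hev : ∀ i, eval (fun _ => 1) (pat i) = 2 := by
      intro i
      fin_cases i <;> simp [pat]
    intro i
    refine ⟨?_, ?_⟩
    · intro h0
      have := hev i
      rw [h0] at this
      simp at this
    · rw [← constantCoeff_eq]
      fin_cases i <;> simp [pat]
  · intro r c
    obtain ⟨a, h1, _, _, h4⟩ := strong r c 0
    exact ⟨a, h1, h4⟩

end Pool.Agent.Results.MP_700e60_co.Counter
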